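import Pool.Agent.Helper24.AL.St

/-!
# AL module SPLIT
-/

set_option autoImplicit false

namespace Pool.Agent.Helper84.AL

open Finset
open Pool.Agent.Helper24.AL

theorem WT_eq (c A B : ℕ) (P : (Fin 3 → ℤ) → (Fin 3 → ℤ) → Prop)
    [DecidablePred (fun p : (Fin 3 → ℤ) × (Fin 3 → ℤ) => P p.1 p.2)] :
    WT c A B P = ∑ p ∈ Bx A B, if P p.1 p.2 then Lam c p.1 p.2 else 0 := by
  classical
  unfold WT
  rw [Finset.sum_filter]
  apply Finset.sum_congr rfl
  intro p _
  by_cases h : P p.1 p.2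
  · rw [if_pos h, if_pos h]
  · rw [if_neg h, if_neg h]

theorem sum_Q6 (c A B : ℕ) :
    ∑ l ∈ Us c, Q6 c l A B = ∑ p ∈ Bx A B, Lam c p.1 p.2 := by
  classical
  have h1 : ∀ l ∈ Us c, Q6 c l A B =
      ∑ p ∈ Bx A B, if Eqs c l p.1 p.2 then 1 else 0 := by
    intro l _
    unfold Q6
    rw [Finset.card_filter]
  have h2 : ∀ p ∈ Bx A B, Lam c p.1 p.2 =
      ∑ l ∈ Us c, if Eqs c l p.1 p.2 then 1 else 0 := by
    intro p _
    unfold Lam
    rw [Finset.card_filter]
    have h3 : (do let a ← Us c; pure (a : ℤ) : Finset ℤ) =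
        (Us c).image (fun a : ℕ => (a : ℤ)) := by
      ext x
      simp only [Finset.bind_def, Finset.pure_def, Finset.mem_sup, Finset.mem_singleton,
        Finset.mem_image]
      constructor
      · rintro ⟨a, ha, h⟩
        exact ⟨a, ha, h.symm⟩
      · rintro ⟨a, ha, h⟩
        exact ⟨a, ha, h.symm⟩
    rw [h3, Finset.sum_image]
    intro a _ b _ hab
    exact Int.ofNat_inj.1 hab
  rw [Finset.sum_congr rfl h1, Finset.sum_congr rfl h2]
  exact Finset.sum_comm

theorem hSPLIT : StSPLIT := by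
  classical
  intro c A B
  rw [sum_Q6, WT_eq, WT_eq, WT_eq, WT_eq, WT_eq, WT_eq, ← Finset.sum_add_distrib,
    ← Finset.sum_add_distrib, ← Finset.sum_add_distrib, ← Finset.sum_add_distrib,
    ← Finset.sum_add_distrib]
  apply Finset.sum_congr rfl
  intro p _
  by_cases h1 : Nz p.1 p.2
  · by_cases h2 : Col p.1 p.2
    · simp [h1, h2]
    · by_cases h3 : sg p.1 = 0
      · by_cases h4 : sg p.2 = 0
        · simp [h1, h2, h3, h4]
        · simp [h1, h2, h3, h4]
      · by_cases h4 : sg p.2 = 0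
        · simp [h1, h2, h3, h4]
        · simp [h1, h2, h3, h4]
  · simp [h1]

end Pool.Agent.Helper84.AL
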