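import Pool.Agent.Helper24.AL.St
import Pool.Agent.Helper28.SP.M_NPW

/-!
# AL module WPN1
-/

set_option autoImplicit false

namespace Pool.Agent.Helper84.AL

open Finset Matrix
open Pool.Agent.Helper24.AL
open Pool.Agent.Helper56.SW (τ Γ I bx E Rel N Nq)
open Pool.Agent.Helper28.SP Pool.Agent.Helper28.SP.NPW

theorem hWPN1 : StWPN1 := by
  classical
  intro e a b k A B he hk
  have hcen : ∀ x : SG e, red e (1 : SZ) * x = x * red e (1 : SZ) := by
    intro x
    rw [map_one, one_mul, mul_one]
  rw [W_eq a b e A B k hk 1 hcen, N1]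
  calc (∑ l ∈ bx (I (2 * A)) (I (2 * B)) k with red e (EZ a b l) = red e 1, wt A B l)
      ≤ ∑ l ∈ bx (I (2 * A)) (I (2 * B)) k with red e (EZ a b l) = red e 1,
          ((2 * (A : ℝ) + 1) * (2 * B + 1)) ^ k := by
        refine sum_le_sum fun l hl => ?_
        rw [mem_filter, Pool.Agent.Helper56.SW.mem_bx] at hl
        have := wt_le A B l
        rwa [hl.1.1] at this
    _ ≤ ∑ l ∈ bx (I (2 * A)) (I (2 * B)) k with Rel e a b 1 l,
          ((2 * (A : ℝ) + 1) * (2 * B + 1)) ^ k := by
        refine sum_le_sum_of_subset_of_nonneg ?_ fun _ _ _ => by positivity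
        intro l hl
        rw [mem_filter] at hl ⊢
        refine ⟨hl.1, ?_⟩
        rw [rel_iff, hl.2, map_one]
        simp
    _ = _ := by
        rw [sum_const, nsmul_eq_mul, mul_comm]

end Pool.Agent.Helper84.AL
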